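import Mathlib

/-!
# The Delta-identity fails for generalized sharped cubic forms

Over every field in which `2` and `3` are invertible we give a generalized sharped cubic form
`(N, Δ, #, c)` on the three-dimensional space `F³` for which the identity `(⋆)` fails.
-/

set_option autoImplicit false

namespace Pool.Agent.Results.MP_aa3754_al.DeltaIdentityFails

variable {F V : Type*} [Field F] [AddCommGroup V] [Module F V]

/-- The complete linearization `N(v, u, w)`. -/
def lin3 (N : V → F) (v u w : V) : F :=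
  N (v + u + w) - N (v + u) - N (v + w) - N (u + w) + N u + N v + N w

/-- The polarization `N(r, q) = N(r, r, q) / 2`. -/
def lin2 (N : V → F) (r q : V) : F := lin3 N r r q / 2

/-- `N` is a cubic form: `N (x + t y) = N x + t N(x, y) + t² N(y, x) + t³ N y`, where `N(x, y)`
is linear in `y` and quadratic in `x` (that is, `x ↦ N(x, y)` is the diagonal of a bilinear map
with values in the scalars). -/
structure IsCubicForm (N : V → F) : Prop where
  expand : ∀ (x y : V) (t : F),
    N (x + t • y) = N x + t * lin2 N x y + t ^ 2 * lin2 N y x + t ^ 3 * N y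
  linear : ∀ x : V, IsLinearMap F (fun y => lin2 N x y)
  quadratic : ∀ y : V, ∃ B : V →ₗ[F] V →ₗ[F] F, ∀ x, lin2 N x y = B x x

/-- The trace `T(r) = N(r, c, c) / 2`. -/
def tr (N : V → F) (c r : V) : F := lin3 N r c c / 2

/-- The bilinear form `S(r, q) = N(r, q, c)`. -/
def S (N : V → F) (c r q : V) : F := lin3 N r q c

/-- The form `(r, q) = T(r) T(q) - S(r, q) - Δ(r, q)`. -/
def form (N : V → F) (D : V →ₗ[F] V →ₗ[F] F) (c r q : V) : F :=
  tr N c r * tr N c q - S N c r q - D r q

/-- The sharp product `r # q = (r + q)^# - r^# - q^#`. -/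
def sharpProd (sh : V → V) (r q : V) : V := sh (r + q) - sh r - sh q

/-- `(N, Δ, #, c)` is a generalized sharped cubic form on the vector space `V` over `F`. -/
structure IsGenSharped (N : V → F) (D : V →ₗ[F] V →ₗ[F] F) (sh : V → V) (c : V) : Prop where
  cubic : IsCubicForm N
  normOne : N c = 1
  deltaSymm : ∀ r q, D r q = D q r
  deltaC : ∀ r, D r c = 0
  sharpQuadratic : ∃ B : V →ₗ[F] V →ₗ[F] V, ∀ r, sh r = B r r
  traceSharp : ∀ r q,
    form N D c (sharpProd sh r q) r + form N D c (sh r) q = 3 * lin2 N r q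
  adjoint : ∀ r, sh (sh r) = (N r + D (sh r) r) • r
  cSharp : ∀ r, sharpProd sh c r = tr N c r • c - r

/-- The identity `(⋆)` at the triple `(r, q, s)`. -/
def StarAt (N : V → F) (D : V →ₗ[F] V →ₗ[F] F) (sh : V → V) (c r q s : V) : Prop :=
  D (sharpProd sh r q) s - D r (sharpProd sh q s)
    = 1 / 3 * (tr N c s * D r q - tr N c r * D q s)

/-! ### The example -/

/-- The cubic form `N(r) = r₃ (r₁ r₂ + (r₁ - r₂)²)`. -/
def exN (F : Type*) [Field F] (r : Fin 3 → F) : F := r 2 * (r 0 * r 1 + (r 0 - r 1) ^ 2)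

/-- The sharp map `(r₂ r₃, r₁ r₃, r₁ r₂)`. -/
def exSh (F : Type*) [Field F] (r : Fin 3 → F) : Fin 3 → F := ![r 1 * r 2, r 0 * r 2, r 0 * r 1]

/-- The linear functional `r₁ - r₂`. -/
def exA (F : Type*) [Field F] : (Fin 3 → F) →ₗ[F] F :=
  (LinearMap.proj (R := F) (φ := fun _ : Fin 3 => F) 0)
    - (LinearMap.proj (R := F) (φ := fun _ : Fin 3 => F) 1)

/-- `Δ(r, q) = (r₁ - r₂) (q₁ - q₂)`. -/
def exD (F : Type*) [Field F] : (Fin 3 → F) →ₗ[F] (Fin 3 → F) →ₗ[F] F :=
  LinearMap.mk₂ F (fun r q => exA F r * exA F q)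
    (fun a b c => by simp [add_mul]) (fun t a b => by simp [mul_assoc])
    (fun a b c => by simp [mul_add]) (fun t a b => by simp; ring)

theorem exD_apply (F : Type*) [Field F] (r q : Fin 3 → F) :
    exD F r q = (r 0 - r 1) * (q 0 - q 1) := by
  simp [exD, exA]

theorem lin2_ex (F : Type*) [Field F] (h2 : (2 : F) ≠ 0) (r q : Fin 3 → F) :
    lin2 (exN F) r q = q 2 * (r 0 * r 1 + (r 0 - r 1) ^ 2)
      + r 2 * (q 0 * r 1 + r 0 * q 1 + 2 * (r 0 - r 1) * (q 0 - q 1)) := by
  simp only [lin2, lin3, exN, Pi.add_apply]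
  field_simp
  ring

theorem tr_ex (F : Type*) [Field F] (h2 : (2 : F) ≠ 0) (r : Fin 3 → F) :
    tr (exN F) (fun _ => 1) r = r 0 + r 1 + r 2 := by
  simp only [tr, lin3, exN, Pi.add_apply]
  field_simp
  ring

theorem S_ex (F : Type*) [Field F] (r q : Fin 3 → F) :
    S (exN F) (fun _ => 1) r q = r 0 * q 1 + r 1 * q 0 + r 0 * q 2 + r 2 * q 0 + r 1 * q 2
      + r 2 * q 1 + 2 * (r 0 - r 1) * (q 0 - q 1) := by
  simp only [S, lin3, exN, Pi.add_apply]
  ring

theorem form_ex (F : Type*) [Field F] (h2 : (2 : F) ≠ 0) (r q : Fin 3 → F) :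
    form (exN F) (exD F) (fun _ => 1) r q = r 0 * q 0 + r 1 * q 1 + r 2 * q 2
      - 3 * ((r 0 - r 1) * (q 0 - q 1)) := by
  rw [form, tr_ex F h2, tr_ex F h2, S_ex, exD_apply]
  ring

theorem sharpProd_ex (F : Type*) [Field F] (r q : Fin 3 → F) :
    sharpProd (exSh F) r q
      = ![r 1 * q 2 + r 2 * q 1, r 0 * q 2 + r 2 * q 0, r 0 * q 1 + r 1 * q 0] := by
  ext i
  fin_cases i <;> simp [sharpProd, exSh] <;> ring

/-- The bilinear map whose diagonal is the sharp map. -/
def exB (F : Type*) [Field F] : (Fin 3 → F) →ₗ[F] (Fin 3 → F) →ₗ[F] (Fin 3 → F) :=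
  LinearMap.mk₂ F (fun r q => ![r 1 * q 2, r 0 * q 2, r 0 * q 1])
    (fun a b c => by ext i; fin_cases i <;> simp [add_mul])
    (fun t a b => by ext i; fin_cases i <;> simp [mul_assoc])
    (fun a b c => by ext i; fin_cases i <;> simp [mul_add])
    (fun t a b => by ext i; fin_cases i <;> simp <;> ring)

theorem ex_isCubic (F : Type*) [Field F] (h2 : (2 : F) ≠ 0) : IsCubicForm (exN F) where
  expand x y t := by
    rw [lin2_ex F h2, lin2_ex F h2]
    simp only [exN, Pi.add_apply, Pi.smul_apply, smul_eq_mul]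
    ring
  linear x := by
    refine ⟨fun a b => ?_, fun t a => ?_⟩
    · simp only [lin2_ex F h2, Pi.add_apply]; ring
    · simp only [lin2_ex F h2, Pi.smul_apply, smul_eq_mul]; ring
  quadratic y := by
    refine ⟨LinearMap.mk₂ F (fun r q => y 2 * (r 0 * q 1 + (r 0 - r 1) * (q 0 - q 1))
      + r 2 * (y 0 * q 1 + q 0 * y 1 + 2 * (q 0 - q 1) * (y 0 - y 1)))
      ?_ ?_ ?_ ?_, ?_⟩
    · intro a b c; simp only [Pi.add_apply]; ring
    · intro t a b; simp only [Pi.smul_apply, smul_eq_mul]; ring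
    · intro a b c; simp only [Pi.add_apply]; ring
    · intro t a b; simp only [Pi.smul_apply, smul_eq_mul]; ring
    · intro x
      rw [lin2_ex F h2, LinearMap.mk₂_apply]
      ring

theorem ex_isGenSharped (F : Type*) [Field F] (h2 : (2 : F) ≠ 0) :
    IsGenSharped (exN F) (exD F) (exSh F) (fun _ => 1) where
  cubic := ex_isCubic F h2
  normOne := by simp [exN]
  deltaSymm r q := by rw [exD_apply, exD_apply]; ring
  deltaC r := by rw [exD_apply]; ring
  sharpQuadratic := ⟨exB F, fun r => by simp [exB, exSh]⟩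
  traceSharp r q := by
    rw [form_ex F h2, form_ex F h2, lin2_ex F h2, sharpProd_ex]
    simp [exSh]
    ring
  adjoint r := by
    rw [exD_apply]
    ext i
    fin_cases i <;> simp [exSh, exN] <;> ring
  cSharp r := by
    rw [sharpProd_ex, tr_ex F h2]
    ext i
    fin_cases i <;> simp <;> ring

/-- **The answer to the question is negative over every field.**
For every field `F` in which `2` and `3` are invertible there are a generalized sharped cubic form
`(N, Δ, #, c)` on `F³` and `r, q, s` for which `(⋆)` fails. -/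
theorem result (F : Type*) [Field F] (h2 : (2 : F) ≠ 0) (_h3 : (3 : F) ≠ 0) :
    ∃ (N : (Fin 3 → F) → F) (D : (Fin 3 → F) →ₗ[F] (Fin 3 → F) →ₗ[F] F)
      (sh : (Fin 3 → F) → (Fin 3 → F)) (c : Fin 3 → F),
      IsGenSharped N D sh c ∧ ∃ r q s, ¬ StarAt N D sh c r q s := by
  refine ⟨exN F, exD F, exSh F, fun _ => 1, ex_isGenSharped F h2, ![1, -1, 0], ![1, 0, 0],
    ![1, 1, -2], ?_⟩
  intro h
  rw [StarAt, tr_ex F h2, tr_ex F h2, exD_apply, exD_apply, exD_apply, exD_apply,
    sharpProd_ex, sharpProd_ex] at h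
  simp at h
  apply h2
  have h4 : (2 : F) * 2 = 0 := by
    first
      | linear_combination h
      | linear_combination -h
  exact (mul_self_eq_zero.1 h4)

end Pool.Agent.Results.MP_aa3754_al.DeltaIdentityFails
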